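import Mathlib
import Pool.Agent.R232.BrokenLin

/-!
# MP_8df504_an, Q1: ergodic averages of broken-linear maps which diverge

Let `T` be a broken-linear transformation of `[0,1]` with a wandering interval `W`, that is, a
nondegenerate interval whose images `W`, `T W`, `T² W`, ... are pairwise disjoint (for example
`T x = x / 2`, or any `T` which is `x ↦ c + s (x - c)`, `0 < s < 1`, near a fixed point `c`). Let `R`
be the union of the sets `T^n W` with `⌊log₂ n⌋` even. A point `p` of `W` satisfies `T^n p ∈ R` if and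
only if `⌊log₂ n⌋` is even, and so the averages `A_N(R, p)` do not converge.

For the broken-linear homeomorphism `T x = max (x / 2) (2 x - 1)` of `[0,1]` there is a Borel set `R`
such that the averages diverge for *every* `p` in `(0,1)`.

The divergence of the Cesàro means of the indicator function of `{n : ⌊log₂ n⌋ even}` and the second
example are taken from the library file `Pool.Agent.R232.BrokenLin` of the starting result
`InfinitelyManyValues` (Q2).
-/

open MeasureTheory Set Filter Topology
open Pool.Agent.R232.BrokenLin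

namespace Pool.Agent.Results.MP_8df504_an.DivergentAverages

/-- **Negative answer to Q1 of MP_8df504_an.** (1) If the broken-linear transformation `T` has a
wandering interval `[u, v]`, then there is a Borel set `R ⊆ [0,1]` for which the averages `A_N(R, p)`
diverge for all `p ∈ [u, v]`. (2) There are a broken-linear homeomorphism `T` of `[0,1]` and a Borel
set `R ⊆ [0,1]` for which they diverge for all `p ∈ (0,1)`. (3) The map `T x = x / 2` has the wandering
interval `[3/5, 1]`. -/
theorem result :
    (∀ (T : ℝ → ℝ) (u v : ℝ), BrokenLinear T → u < v → Set.Icc u v ⊆ Set.Icc 0 1 →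
      (∀ m n : ℕ, m ≠ n → Disjoint (T^[m] '' Set.Icc u v) (T^[n] '' Set.Icc u v)) →
      ∃ R : Set ℝ, R ⊆ Set.Icc 0 1 ∧ MeasurableSet R ∧
        ∀ p ∈ Set.Icc u v, ∀ l : ℝ, ¬ Tendsto (fun N : ℕ => avg T R p N) atTop (𝓝 l)) ∧
    (∃ (T : ℝ → ℝ) (R : Set ℝ), BrokenLinear T ∧ Set.BijOn T (Set.Icc 0 1) (Set.Icc 0 1) ∧
      R ⊆ Set.Icc 0 1 ∧ MeasurableSet R ∧
        ∀ p ∈ Set.Ioo (0:ℝ) 1, ∀ l : ℝ, ¬ Tendsto (fun N : ℕ => avg T R p N) atTop (𝓝 l)) ∧
    (BrokenLinear (fun x => x / 2) ∧ ∀ m n : ℕ, m ≠ n →
      Disjoint ((fun x : ℝ => x / 2)^[m] '' Set.Icc (3 / 5) 1)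
        ((fun x : ℝ => x / 2)^[n] '' Set.Icc (3 / 5) 1)) := by
  classical
  refine ⟨?_, ⟨T, R₁, T_broken, T_bij, fun x hx => ⟨hx.1.1.le, hx.1.2⟩, measurable_R₁,
    fun p hp l => q1 hp.1 hp.2 l⟩, ⟨?_, ?_, ?_⟩, ?_⟩
  · intro T u v hT huv hsub hW
    have hmaps : ∀ n : ℕ, T^[n] '' Icc u v ⊆ Icc 0 1 := by
      rintro n _ ⟨x, hx, rfl⟩
      exact hT.maps.iterate n (hsub hx)
    have hmeas : ∀ n : ℕ, MeasurableSet (T^[n] '' Icc u v) := by
      intro n
      have hc : ContinuousOn (T^[n]) (Icc 0 1) := by
        induction n with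
        | zero => exact continuousOn_id
        | succ n ih =>
          rw [Function.iterate_succ']
          exact hT.cont.comp ih (hT.maps.iterate n)
      exact (isCompact_Icc.image_of_continuousOn (hc.mono hsub)).isClosed.measurableSet
    refine ⟨⋃ n ∈ {n : ℕ | Even (Nat.log 2 n)}, T^[n] '' Icc u v, ?_, ?_, ?_⟩
    · exact iUnion₂_subset fun n _ => hmaps n
    · exact MeasurableSet.biUnion (to_countable _) fun n _ => hmeas n
    · intro p hp l hl
      set R : Set ℝ := ⋃ n ∈ {n : ℕ | Even (Nat.log 2 n)}, T^[n] '' Icc u v with hR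
      have hind : ∀ i : ℕ, R.indicator (fun _ => (1 : ℝ)) (T^[i] p) = ev i := by
        intro i
        unfold ev
        rw [Set.indicator_apply]
        have : T^[i] p ∈ R ↔ Even (Nat.log 2 i) := by
          rw [hR, mem_iUnion₂]
          constructor
          · rintro ⟨n, hn, hx⟩
            by_contra hne
            have hni : n ≠ i := by
              rintro rfl
              exact hne hn
            exact (disjoint_left.1 (hW n i hni)) hx ⟨p, hp, rfl⟩
          · intro h
            exact ⟨i, h, p, hp, rfl⟩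
        simp only [this]
      have h1 : Tendsto (fun N : ℕ => (1 / (N : ℝ)) * ∑ i ∈ Finset.Icc 1 N, ev i) atTop (𝓝 l) := by
        refine hl.congr fun N => ?_
        unfold avg
        rw [Finset.sum_congr rfl fun i _ => hind i]
      rw [cesaro_Icc ev ev_nonneg ev_le 0 l] at h1
      simp only [zero_add] at h1
      exact ev_diverge l h1
  · exact fun x hx => ⟨by linarith [hx.1], by linarith [hx.2]⟩
  · fun_prop
  · exact ⟨1, fun j => (j : ℝ), by norm_num, by norm_num, fun j hj => by
      have : j = 0 := by omega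
      subst this; norm_num, fun j _ => ⟨1 / 2, 0, fun x _ => by ring⟩⟩
  · have hit : ∀ (n : ℕ) (x : ℝ), (fun x : ℝ => x / 2)^[n] x = x / 2 ^ n := by
      intro n
      induction n with
      | zero => intro x; simp
      | succ n ih =>
        intro x
        rw [Function.iterate_succ_apply', ih, pow_succ]
        field_simp
    have key : ∀ m n : ℕ, m < n → ∀ x ∈ Icc (3 / 5 : ℝ) 1, ∀ y ∈ Icc (3 / 5 : ℝ) 1,
        x / 2 ^ m ≠ y / 2 ^ n := by
      intro m n hmn x hx y hy h
      have h2 : (2 : ℝ) ^ n = 2 ^ m * 2 ^ (n - m) := by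
        rw [← pow_add]
        congr 1
        omega
      have h3 : (2 : ℝ) ^ 1 ≤ 2 ^ (n - m) := pow_le_pow_right₀ (by norm_num) (by omega)
      have h4 : (0 : ℝ) < 2 ^ m := by positivity
      have h5 : x * 2 ^ (n - m) = y := by
        rw [h2, div_eq_div_iff h4.ne' (by positivity)] at h
        have : 2 ^ m * (x * 2 ^ (n - m)) = 2 ^ m * y := by linarith
        exact mul_left_cancel₀ h4.ne' this
      nlinarith [hx.1, hy.2]
    intro m n hmn
    rw [disjoint_left]
    rintro _ ⟨x, hx, rfl⟩ ⟨y, hy, hxy⟩
    simp only [hit] at hxy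
    rcases lt_or_gt_of_ne hmn with h | h
    · exact key m n h x hx y hy hxy.symm
    · exact key n m h y hy x hx hxy

end Pool.Agent.Results.MP_8df504_an.DivergentAverages
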